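import Pool.Agent.W606.PS.Stm

/-!
Project PS (helper606), S_PJ: replacing the faces of a connected set by their links.
-/

set_option autoImplicit false

namespace Pool.Agent.W179.PS.Pj

open Set Relation Pool.Agent.W606.PS

theorem main : S_PJ := by
  intro A W G₀ G hVF hlink Q hQ
  obtain ⟨P, hP⟩ : ∃ P : Set A, P = {a | Sum.inl a ∈ Q ∨ ∃ w, Sum.inr w ∈ Q ∧
    G.Adj (Sum.inr w) (Sum.inl a)} := ⟨_, rfl⟩
  rw [← hP]
  let S : A ⊕ W → Set A := Sum.elim (fun a => {a}) (fun w => {a | G.Adj (Sum.inr w) (Sum.inl a)})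
  have hSc : ∀ y, Con G₀ (S y) := by
    rintro (a | w)
    · exact con_singleton G₀ a
    · exact hlink w
  have hSP : ∀ y ∈ Q, S y ⊆ P := by
    rintro (a | w) hy b hb
    · have hb' : b = a := hb
      rw [hP, hb']
      exact Or.inl hy
    · rw [hP]
      exact Or.inr ⟨w, hy, hb⟩
  have hPS : ∀ a ∈ P, ∃ y ∈ Q, a ∈ S y := by
    intro a ha
    rw [hP] at ha
    rcases ha with ha | ⟨w, hw, hwa⟩
    · exact ⟨Sum.inl a, ha, rfl⟩
    · exact ⟨Sum.inr w, hw, hwa⟩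
  obtain ⟨y₀, hy₀⟩ := hQ.1
  have key : ∀ y, ReflTransGen (fun a b => G.Adj a b ∧ a ∈ Q ∧ b ∈ Q) y₀ y →
      ∃ R, Con G₀ R ∧ R ⊆ P ∧ S y₀ ⊆ R ∧ S y ⊆ R := by
    intro y p
    induction p with
    | refl => exact ⟨S y₀, hSc y₀, hSP y₀ hy₀, subset_rfl, subset_rfl⟩
    | @tail b c _ hbc ih =>
      obtain ⟨R, hR1, hR2, hR3, hR4⟩ := ih
      obtain ⟨e, hb, hc⟩ := hbc
      refine ⟨R ∪ S c, ?_, union_subset hR2 (hSP c hc), hR3.trans subset_union_left,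
        subset_union_right⟩
      rcases b with b | w <;> rcases c with c | w'
      · exact hR1.union_tch (hSc _) ⟨b, hR4 rfl, c, rfl, (hVF.ll b c).1 e⟩
      · exact hR1.union_inter (hSc _) ⟨b, hR4 rfl, e.symm⟩
      · exact hR1.union_inter (hSc _) ⟨c, hR4 e, rfl⟩
      · exact absurd e (hVF.rr w w')
  refine con_of_cover (hSc y₀) (hSP y₀ hy₀) ?_
  intro v hv
  obtain ⟨y, hy, hvy⟩ := hPS v hv
  obtain ⟨R, hR1, hR2, hR3, hR4⟩ := key y (hQ.2 y₀ hy₀ y hy)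
  obtain ⟨z, hz⟩ := (hSc y₀).1
  exact ⟨R, hR4 hvy, hR2, hR1, z, hR3 hz, hz⟩

end Pool.Agent.W179.PS.Pj
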