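import Pool.Agent.W606.PS.Stm

/-!
Project PS (helper606), S_SEP2: separation with three legs and a hub.
-/

set_option autoImplicit false

namespace Pool.Agent.W179.PS

open Set Pool.Agent.W606.PS

theorem main (h : S_K33) : S_SEP2 := by
  intro V T G tv hS Om La Z L hR hLO hLd hZL hLaO hLa hLaL hcase Om' hO'
  have hZO : ∀ i, ∀ v ∈ Z i, v ∉ Om := by
    intro i v hv hvO
    have : v ∈ Omᶜ := hR.cov ▸ mem_iUnion.2 ⟨i, hv⟩
    exact this hvO
  have hO'O : ∀ v ∈ Om', v ∈ Om ∧ v ∉ La ∧ ∀ i, v ∉ L i := by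
    intro v hv
    have := hO'.1 hv
    refine ⟨this.1, fun hh => this.2 (Or.inl hh), fun i hh => this.2 (Or.inr (mem_iUnion.2 ⟨i, hh⟩))⟩
  have hTL : ∀ i, Tch G La (Z i ∪ L i) := by
    intro i
    rcases hcase i with ⟨-, u, hu, v, hv, e⟩ | ⟨-, u, hu, v, hv, e⟩
    · exact ⟨u, hu, v, Or.inl hv, e⟩
    · exact ⟨u, hu, v, Or.inr hv, e⟩
  have hk : ∃ k, ¬ Tch G Om' (Z k ∪ L k) := by
    by_contra hcon
    push Not at hcon
    refine h V T G tv hS Om' La (fun i => Z i ∪ L i) hO'.2.1 hLa hZL ?_ ?_ ?_ ?_ hcon hTL ?_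
    · intro i j hij
      rw [Set.disjoint_left]
      rintro v (hv | hv) (hv' | hv')
      · exact Set.disjoint_left.1 (hR.disj i j hij) hv hv'
      · exact hZO i v hv (hLO j hv')
      · exact hZO j v hv' (hLO i hv)
      · exact Set.disjoint_left.1 (hLd i j hij) hv hv'
    · rw [Set.disjoint_left]
      exact fun v hv => (hO'O v hv).2.1
    · intro i
      rw [Set.disjoint_left]
      rintro v hv (hv' | hv')
      · exact hZO i v hv' (hO'O v hv).1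
      · exact (hO'O v hv).2.2 i hv'
    · intro i
      rw [Set.disjoint_left]
      rintro v hv (hv' | hv')
      · exact hZO i v hv' (hLaO hv)
      · exact Set.disjoint_left.1 (hLaL i) hv hv'
    · obtain ⟨t, s, hs⟩ := hR.rain
      exact ⟨t, s, fun i => Or.inl (hs i)⟩
  obtain ⟨k, hk⟩ := hk
  refine ⟨k, hk, ?_⟩
  have hYO : La ∪ ⋃ i, L i ⊆ Om := by
    rintro v (hv | hv)
    · exact hLaO hv
    · obtain ⟨i, hi⟩ := mem_iUnion.1 hv
      exact hLO i hi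
  obtain ⟨a, ha⟩ := hLa.1
  refine con_union_diff hR.om hYO ⟨a, Or.inl ha⟩ hO' ?_
  have hS0 : Con G ((Z k ∪ L k) ∪ La) := (hZL k).union_tch hLa (hTL k).symm
  have hsub : (Z k ∪ L k) ∪ La ⊆ Z k ∪ (La ∪ ⋃ i, L i) := by
    rintro v ((hv | hv) | hv)
    · exact Or.inl hv
    · exact Or.inr (Or.inr (mem_iUnion.2 ⟨k, hv⟩))
    · exact Or.inr (Or.inl hv)
  refine con_of_cover hS0 hsub ?_
  rintro v (hv | hv | hv)
  · exact ⟨_, Or.inl (Or.inl hv), hsub, hS0, ⟨v, Or.inl (Or.inl hv), Or.inl (Or.inl hv)⟩⟩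
  · exact ⟨_, Or.inr hv, hsub, hS0, ⟨v, Or.inr hv, Or.inr hv⟩⟩
  · obtain ⟨i, hi⟩ := mem_iUnion.1 hv
    rcases hcase i with ⟨he, -⟩ | ⟨hc, ht⟩
    · rw [he] at hi
      exact absurd hi (Set.notMem_empty v)
    · refine ⟨L i ∪ La, Or.inl hi, ?_, hc.union_tch hLa ht.symm, ⟨a, Or.inr ha, Or.inr ha⟩⟩
      rintro w (hw | hw)
      · exact Or.inr (Or.inr (mem_iUnion.2 ⟨i, hw⟩))
      · exact Or.inr (Or.inl hw)

end Pool.Agent.W179.PS
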